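import Pool.Agent.TH762.WD.Word

/-!
# P is contained in L (in NL) iff L (NL) can name wrong values of functions in P

We work with predicates and functions of a word over an alphabet of `m` symbols and of natural
numbers in unary. `Pd LF` is L: `LF` is the smallest class of functions which contains the zero
function, the successor, the projections, `(x + 1) * (y + 1)`, the length of the word and its
symbols, and is closed under composition and limited recursion (polynomially bounded numbers are
stored in logarithmic space, and the configurations of a machine for L, or the positions of the heads
of a two-way multihead automaton, are such numbers). `NR (Pd LF)` is NL: the predicates which say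
that a path leads from `0` to `1` in a graph on the numbers up to a polynomial whose edges are in L.
`Pd PF` is P: here limited recursion on tableaux is allowed in addition, where the value of a cell
depends on the values of the neighbouring cells one step before (the cells of the tape of a Turing
machine, or the surface configurations of a multihead pushdown automaton).

Theorem: P = L if and only if for some constant `k` for each function `f` of a word and a number
with values `0, ..., k` in P there is a function `g` with values `0, ..., k` in L with `g ≠ f`
everywhere; for `k = 1` this is the same as computing `f`. In the same way P is contained in NL
iff for some `k` such `g` exist in NL, and for every class `D` closed under bounded quantification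
which can read the symbols, P is contained in `D` iff for some `k` such `g` exist in `D`.

Proof: the values of a tableau at `k` cells are coded by a number; for any `k + 1` codes the number
of those codes which are at most the true one is a function in P with values `0, ..., k`, so one
of the codes is excluded. So there is a list of at most `k` candidates for the values at any `k` cells.
By `MC.world` for some `d < k` there are `k - d - 1` cells such that their true values together with
the value at one further cell survive the extensions by `d` cells in exactly one way. By bounded
quantifiers one guesses the values at the `k - d - 1` cells, and checks with the recursion whether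
the values which they give are right. For NL the theorem of Immerman and Szelepcsenyi is used,
which is proved here for the class `NR`.
-/

set_option autoImplicit false

namespace Pool.Agent.Results.MP_5e85fc_lc.AvoidedWord

open Pool.Agent.TH762.WD

/-- (1) P = L iff for some `k` the functions in P with values `0..k` are avoided by L; (2) P is
contained in NL iff for some `k` they are avoided by NL; (3) the same for any class `D` closed under
polynomial (in)equalities, Boolean operations, polynomially bounded quantification and renaming
of variables, in which the symbols of the word are definable. -/
theorem result (m : ℕ) :
    ((∀ (n : ℕ) (R : List (Fin m) → (Fin n → ℕ) → Prop), R ∈ Pd PF n ↔ R ∈ Pd LF n) ↔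
      ∃ k : ℕ, Avoid (W := List (Fin m)) PF (Pd LF) k) ∧
    ((∀ (n : ℕ) (R : List (Fin m) → (Fin n → ℕ) → Prop), R ∈ Pd PF n → R ∈ NR (Pd LF) n) ↔
      ∃ k : ℕ, Avoid (W := List (Fin m)) PF (NR (Pd LF)) k) ∧
    (∀ D : (n : ℕ) → Set (List (Fin m) → (Fin n → ℕ) → Prop), Clo D →
      Fn D (fun p : Bs (List (Fin m)) 1 => Wi.inp p.w (p.v 0)) →
      ((∀ (n : ℕ) (R : List (Fin m) → (Fin n → ℕ) → Prop), R ∈ Pd PF n → R ∈ D n) ↔
        ∃ k : ℕ, Avoid (W := List (Fin m)) PF D k)) :=
  ⟨⟨fun h => law_P_L.1 fun n R => (h n R).1, fun h n R => ⟨law_P_L.2 h n R, Pd_LF_PF⟩⟩,
    law_P_NL, fun _ hD hI => law_PF hD hI⟩

end Pool.Agent.Results.MP_5e85fc_lc.AvoidedWord
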